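import Pool.Agent.H47.ST.Targets

/-!
# Board `stk_modules`, row SRT: sorting of rows
-/

set_option autoImplicit false

namespace Pool.Agent.H5.STK

open Finset Pool.Agent.H47.ST

theorem le_mx (w : List ℕ) : ∀ x ∈ w, x ≤ mx w := by
  induction w with
  | nil => intro x hx; simp at hx
  | cons a w ih =>
    intro x hx
    have h1 : mx (a :: w) = max a (mx w) := rfl
    rw [h1]
    rcases List.mem_cons.1 hx with h | h
    · rw [h]
      exact le_max_left _ _
    · exact (ih x h).trans (le_max_right _ _)

theorem S_last (hP : T_PERM) (w : List ℕ) : ∀ x ∈ S w, ∀ y ∈ (S w).getLast?, x ≤ y := by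
  rcases eq_or_ne w [] with h | h
  · intro x hx
    have := (hP w).subset hx
    rw [h] at this
    simp at this
  · intro x hx y hy
    have hxw := (hP w).subset hx
    rw [S, dif_neg h, List.getLast?_append] at hy
    have hy' : mx w = y := by simpa using hy
    rw [← hy']
    exact le_mx w x hxw

theorem srt_gen (h1 : T_PERM) (h2 : T_SST) : ∀ (R : ℕ) (C : List (List ℕ)) (D : List ℕ),
    (C.flatten ++ D).Nodup → (∀ B ∈ C, B.length = R) →
    (∀ B ∈ C, ∀ x ∈ B, ∀ y ∈ B.getLast?, x ≤ y) → C.Pairwise dom → D.Pairwise (· < ·) →
    (S^[R] (C.flatten ++ D)).Pairwise (· < ·) := by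
  intro R
  induction R with
  | zero =>
    intro C D _ hlen _ _ hD
    have h3 : C.flatten = [] := by
      rw [List.flatten_eq_nil_iff]
      intro B hB
      exact List.length_eq_zero_iff.1 (hlen B hB)
    rw [h3]
    exact hD
  | succ R ih =>
    intro C D hnd hlen hlast hdom hD
    have hne : ∀ B ∈ C, B ≠ [] := by
      intro B hB h
      have := hlen B hB
      rw [h] at this
      simp at this
    have hBeq : ∀ B ∈ C, B.dropLast ++ [B.getLastD 0] = B := by
      intro B hB
      rw [List.getLastD_eq_getLast?, List.getLast?_eq_some_getLast (hne B hB), Option.getD_some,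
        List.dropLast_append_getLast]
    have hlst : ∀ B ∈ C, ∀ x ∈ B, x ≤ B.getLastD 0 := by
      intro B hB x hx
      apply hlast B hB x hx
      rw [List.getLastD_eq_getLast?, List.getLast?_eq_some_getLast (hne B hB), Option.getD_some]
      rfl
    have hCnd : C.flatten.Nodup := (List.nodup_append.1 hnd).1
    obtain ⟨hBnd, hdis⟩ := List.nodup_flatten.1 hCnd
    obtain ⟨bs, hbs⟩ : ∃ bs : List (List ℕ × ℕ), bs = C.map fun B => (B.dropLast, B.getLastD 0) :=
      ⟨_, rfl⟩
    have hfl : (bs.map fun b => b.1 ++ [b.2]) = C := by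
      rw [hbs, List.map_map]
      conv_rhs => rw [← List.map_id C]
      exact List.map_congr_left fun B hB => hBeq B hB
    have hi : ∀ b ∈ bs, ∀ x ∈ b.1, x < b.2 := by
      intro b hb x hx
      rw [hbs, List.mem_map] at hb
      obtain ⟨B, hB, rfl⟩ := hb
      have hx' : x ∈ B := List.mem_of_mem_dropLast hx
      refine lt_of_le_of_ne (hlst B hB x hx') ?_
      intro h
      have hnd1 := hBnd B hB
      rw [← hBeq B hB] at hnd1
      have h3 := (List.nodup_append.1 hnd1).2.2 x hx (B.getLastD 0) (List.mem_singleton_self _)
      exact h3 h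
    have hmem : ∀ B ∈ C, B.getLastD 0 ∈ B := by
      intro B hB
      have h3 : B.getLastD 0 ∈ B.dropLast ++ [B.getLastD 0] :=
        List.mem_append_right _ (List.mem_singleton_self _)
      rwa [hBeq B hB] at h3
    have hpw : C.Pairwise (fun A B => B.getLastD 0 < A.getLastD 0) := by
      refine List.Pairwise.imp_of_mem ?_ (hdom.and hdis)
      intro A B hA hB h
      have h3 := h.1 (B.getLastD 0)
      have h4 : 0 < (B.filter fun x => decide (B.getLastD 0 ≤ x)).length := by
        apply List.length_pos_of_mem (a := B.getLastD 0)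
        rw [List.mem_filter]
        exact ⟨hmem B hB, by simp⟩
      obtain ⟨x, hx⟩ := List.exists_mem_of_length_pos (h4.trans_le h3)
      rw [List.mem_filter] at hx
      have h5 : B.getLastD 0 ≤ x := of_decide_eq_true hx.2
      have h6 : x ≠ B.getLastD 0 := by
        intro h7
        exact h.2 hx.1 (h7 ▸ hmem B hB)
      exact (lt_of_le_of_ne h5 h6.symm).trans_le (hlst A hA x hx.1)
    have hii : bs.Pairwise (fun b b' => b'.2 < b.2) := by
      rw [hbs, List.pairwise_map]
      exact hpw
    have hnd' : ((bs.map fun b => b.1 ++ [b.2]).flatten ++ D).Nodup := by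
      rw [hfl]
      exact hnd
    obtain ⟨D', hD', -, hS⟩ := h2 bs D hi hii hD hnd'
    rw [hfl] at hS
    have hmap : (bs.map fun b => S b.1) = C.map fun B => S B.dropLast := by
      rw [hbs, List.map_map]
      rfl
    rw [hmap] at hS
    rw [Function.iterate_succ_apply, hS]
    apply ih
    · rw [← hS]
      exact (h1 _).nodup_iff.2 hnd
    · intro B' hB'
      obtain ⟨B, hB, rfl⟩ := List.mem_map.1 hB'
      rw [(h1 _).length_eq, List.length_dropLast, hlen B hB]
      rfl
    · intro B' hB'
      obtain ⟨B, hB, rfl⟩ := List.mem_map.1 hB'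
      exact S_last h1 _
    · rw [List.pairwise_map]
      refine List.Pairwise.imp_of_mem ?_ (hdom.and hpw)
      intro A B hA hB h v
      have hc : ∀ E ∈ C, ∀ v, (E.filter fun x => decide (v ≤ x)).length =
          ((S E.dropLast).filter fun x => decide (v ≤ x)).length +
            (if v ≤ E.getLastD 0 then 1 else 0) := by
        intro E hE v
        rw [((h1 E.dropLast).filter _).length_eq]
        conv_lhs => rw [← hBeq E hE]
        rw [List.filter_append, List.length_append]
        congr 1
        by_cases h3 : v ≤ E.getLastD 0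
        · rw [if_pos h3, List.filter_cons_of_pos (by simpa using h3)]
          rfl
        · rw [if_neg h3, List.filter_cons_of_neg (by simpa using h3)]
          rfl
      have h3 := h.1 v
      rw [hc A hA v, hc B hB v] at h3
      by_cases h4 : v ≤ B.getLastD 0
      · rw [if_pos h4, if_pos (h4.trans h.2.le)] at h3
        omega
      · have h5 : (S B.dropLast).filter (fun x => decide (v ≤ x)) = [] := by
          rw [List.filter_eq_nil_iff]
          intro x hx h6
          have h7 : x ∈ B := List.mem_of_mem_dropLast ((h1 _).subset hx)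
          exact h4 ((of_decide_eq_true h6).trans (hlst B hB x h7))
        rw [h5]
        exact Nat.zero_le _
    · exact hD'

theorem pf_SRT (h1 : T_PERM) (h2 : T_SST) : T_SRT := by
  intro R C hnd hlen hlast hdom
  have h3 := srt_gen h1 h2 R C [] (by rw [List.append_nil]; exact hnd) hlen hlast hdom
    List.Pairwise.nil
  rw [List.append_nil] at h3
  exact h3

end Pool.Agent.H5.STK
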